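import Mathlib
import Pool.Agent.Lib.MP_37c7bf_co_Dense.Counting
import Pool.Agent.Lib.MP_37c7bf_co_h77dm.Defs

/-!
# Few independent vertices of small degree: among any `T` vertices four have ten common neighbours
-/

namespace Pool.Agent.Lib.MP_37c7bf_co_h82dm

open Function Pool.Agent.MP_37c7bf_co_Dense Pool.Agent.Lib.MP_37c7bf_co_h77dm

/-- A version of Ramsey's theorem. -/
theorem ramsey {V : Type*} (G : SimpleGraph V) : ∀ (m a b : ℕ), a + b = m →
    ∀ S : Finset V, 2 ^ m ≤ S.card →
      (∃ A ⊆ S, A.card = a ∧ ∀ x ∈ A, ∀ y ∈ A, x ≠ y → G.Adj x y) ∨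
      ∃ B ⊆ S, B.card = b ∧ ∀ x ∈ B, ∀ y ∈ B, ¬ G.Adj x y := by
  classical
  intro m
  induction m with
  | zero =>
    intro a b hab S _
    left
    refine ⟨∅, Finset.empty_subset _, ?_, by simp⟩
    rw [Finset.card_empty]; omega
  | succ m ih =>
    intro a b hab S hS
    rcases Nat.eq_zero_or_pos a with ha | ha
    · left
      exact ⟨∅, Finset.empty_subset _, by rw [Finset.card_empty, ha], by simp⟩
    rcases Nat.eq_zero_or_pos b with hb | hb
    · right
      exact ⟨∅, Finset.empty_subset _, by rw [Finset.card_empty, hb], by simp⟩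
    have hSne : 0 < S.card := lt_of_lt_of_le (by positivity) hS
    obtain ⟨v, hv⟩ := Finset.card_pos.mp hSne
    have h1 : ((S.erase v).filter fun w => G.Adj v w).card +
        ((S.erase v).filter fun w => ¬ G.Adj v w).card = S.card - 1 := by
      rw [Finset.card_filter_add_card_filter_not, Finset.card_erase_of_mem hv]
    have h2 : 2 ^ m ≤ ((S.erase v).filter fun w => G.Adj v w).card ∨
        2 ^ m ≤ ((S.erase v).filter fun w => ¬ G.Adj v w).card := by
      rw [pow_succ] at hS
      omega
    rcases h2 with h2 | h2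
    · rcases ih (a - 1) b (by omega) _ h2 with ⟨A, hA, hAc, hA2⟩ | ⟨B, hB, hBc, hB2⟩
      · left
        have hvA : v ∉ A := fun h => by
          have := hA h
          simp at this
        refine ⟨insert v A, ?_, ?_, ?_⟩
        · intro x hx
          rcases Finset.mem_insert.mp hx with rfl | hx
          · exact hv
          · exact Finset.mem_of_mem_erase (Finset.mem_filter.mp (hA hx)).1
        · rw [Finset.card_insert_of_notMem hvA, hAc]; omega
        · intro x hx y hy hxy
          rcases Finset.mem_insert.mp hx with rfl | hx1 <;>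
            rcases Finset.mem_insert.mp hy with rfl | hy1
          · exact absurd rfl hxy
          · exact (Finset.mem_filter.mp (hA hy1)).2
          · exact (Finset.mem_filter.mp (hA hx1)).2.symm
          · exact hA2 x hx1 y hy1 hxy
      · right
        exact ⟨B, hB.trans ((Finset.filter_subset _ _).trans (Finset.erase_subset _ _)), hBc, hB2⟩
    · rcases ih a (b - 1) (by omega) _ h2 with ⟨A, hA, hAc, hA2⟩ | ⟨B, hB, hBc, hB2⟩
      · left
        exact ⟨A, hA.trans ((Finset.filter_subset _ _).trans (Finset.erase_subset _ _)), hAc, hA2⟩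
      · right
        have hvB : v ∉ B := fun h => by
          have := hB h
          simp at this
        refine ⟨insert v B, ?_, ?_, ?_⟩
        · intro x hx
          rcases Finset.mem_insert.mp hx with rfl | hx
          · exact hv
          · exact Finset.mem_of_mem_erase (Finset.mem_filter.mp (hB hx)).1
        · rw [Finset.card_insert_of_notMem hvB, hBc]; omega
        · intro x hx y hy
          rcases Finset.mem_insert.mp hx with rfl | hx1 <;>
            rcases Finset.mem_insert.mp hy with rfl | hy1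
          · exact G.irrefl
          · exact (Finset.mem_filter.mp (hB hy1)).2
          · exact fun h => (Finset.mem_filter.mp (hB hx1)).2 h.symm
          · exact hB2 x hx1 y hy1

/-- Many vertices of `W` of large degree: a `K_{m,4}`. -/
theorem exists_Km4' {V : Type*} {G : SimpleGraph V} [DecidableRel G.Adj] (k m : ℕ)
    (U W : Finset V) (hW : W.card = 4 * (k + 1))
    (hU : (4 * k + 1) * ((4 * (k + 1)).choose 4 * m) < U.card)
    (hdeg : ∀ v ∈ W, U.card ≤ (k + 1) * (U.filter fun w => G.Adj v w).card) :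
    ∃ (Y T : Finset V), m < Y.card ∧ T.card = 4 ∧ Y ⊆ U ∧ T ⊆ W ∧
      ∀ y ∈ Y, ∀ t ∈ T, G.Adj y t := by
  classical
  have hsum : 4 * U.card ≤ ∑ x ∈ U, (W.filter fun w => G.Adj x w).card := by
    have h1 : ∑ w ∈ W, U.card ≤ ∑ w ∈ W, (k + 1) * (U.filter fun x => G.Adj w x).card :=
      Finset.sum_le_sum fun w hw => hdeg w hw
    rw [Finset.sum_const, hW, ← Finset.mul_sum, double_count W U, smul_eq_mul,
      mul_comm 4 (k + 1), mul_assoc] at h1
    exact Nat.le_of_mul_le_mul_left h1 (Nat.succ_pos k)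
  set U4 := U.filter fun x => 4 ≤ (W.filter fun w => G.Adj x w).card with hU4
  have hle : ∑ x ∈ U, (W.filter fun w => G.Adj x w).card ≤ (4 * k + 1) * U4.card + 3 * U.card := by
    have h2 : ∀ x ∈ U, (W.filter fun w => G.Adj x w).card ≤
        (4 * k + 1) * (if 4 ≤ (W.filter fun w => G.Adj x w).card then 1 else 0) + 3 := by
      intro x _
      have h3 : (W.filter fun w => G.Adj x w).card ≤ 4 * (k + 1) := by
        rw [← hW]; exact Finset.card_filter_le _ _
      split_ifs <;> omega
    refine (Finset.sum_le_sum h2).trans ?_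
    rw [Finset.sum_add_distrib, ← Finset.mul_sum, Finset.sum_const, hU4, Finset.card_filter,
      smul_eq_mul, mul_comm U.card 3]
  have hU4card : (4 * (k + 1)).choose 4 * m < U4.card := by
    have : U.card ≤ (4 * k + 1) * U4.card := by omega
    exact lt_of_mul_lt_mul_left (hU.trans_le this) (Nat.zero_le _)
  have hT : ∀ x ∈ U4, ∃ T ⊆ W.filter fun w => G.Adj x w, T.card = 4 := by
    intro x hx
    exact Finset.exists_subset_card_eq (Finset.mem_filter.1 hx).2
  choose! T hTsub hT4 using hT
  obtain ⟨T₀, hT₀, hfib⟩ := Finset.exists_lt_card_fiber_of_mul_lt_card_of_maps_to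
    (s := U4) (t := W.powersetCard 4) (f := T) (n := m)
    (by
      intro x hx
      exact Finset.mem_powersetCard.2 ⟨(hTsub x hx).trans (Finset.filter_subset _ _), hT4 x hx⟩)
    (by
      rw [Finset.card_powersetCard, hW]
      exact hU4card)
  have hT₀' := Finset.mem_powersetCard.1 hT₀
  refine ⟨_, T₀, hfib, hT₀'.2, ?_, hT₀'.1, ?_⟩
  · exact (Finset.filter_subset _ _).trans (Finset.filter_subset _ _)
  · intro y hy t ht
    have h1 := Finset.mem_filter.1 hy
    have h2 := hTsub _ h1.1
    rw [h1.2] at h2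
    exact (Finset.mem_filter.1 (h2 ht)).2

/-- A seed from two sets. -/
theorem seed_of_sets {V : Type*} {G : SimpleGraph V} {Y T : Finset V} (hY : Y.card = 10)
    (hT : T.card = 4) (h : ∀ y ∈ Y, ∀ t ∈ T, G.Adj y t) :
    ∃ s, Seed G s ∧ ∀ j : Fin 14, 10 ≤ (j : ℕ) → s j ∈ T := by
  obtain ⟨eY⟩ : Nonempty (Fin 10 ≃ Y) := ⟨(Y.equivFinOfCardEq hY).symm⟩
  obtain ⟨eT⟩ : Nonempty (Fin 4 ≃ T) := ⟨(T.equivFinOfCardEq hT).symm⟩
  refine ⟨fun i => if hi : (i : ℕ) < 10 then (eY ⟨i, hi⟩ : V) else
    (eT ⟨(i : ℕ) - 10, by omega⟩ : V), ⟨?_, ?_⟩, ?_⟩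
  · intro i j hij
    simp only at hij
    by_cases hi : (i : ℕ) < 10 <;> by_cases hj : (j : ℕ) < 10
    · rw [dif_pos hi, dif_pos hj] at hij
      have := eY.injective (Subtype.ext hij)
      simp only [Fin.mk.injEq] at this
      exact Fin.ext this
    · rw [dif_pos hi, dif_neg hj] at hij
      exact absurd hij (h _ (eY ⟨i, hi⟩).2 _ (eT ⟨(j : ℕ) - 10, by omega⟩).2).ne
    · rw [dif_neg hi, dif_pos hj] at hij
      exact absurd hij (h _ (eY ⟨j, hj⟩).2 _ (eT ⟨(i : ℕ) - 10, by omega⟩).2).ne'
    · rw [dif_neg hi, dif_neg hj] at hij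
      have := eT.injective (Subtype.ext hij)
      simp only [Fin.mk.injEq] at this
      exact Fin.ext (by omega)
  · intro i j hi hj
    simp only
    rw [dif_pos hi, dif_neg (by omega)]
    exact h _ (eY _).2 _ (eT _).2
  · intro j hj
    simp only
    rw [dif_neg (by omega)]
    exact (eT _).2

/-- **Few independent vertices of small degree: among any `T` vertices some four have ten common
neighbours.** -/
theorem star_of_few (ε : ℝ) (hε : 0 < ε) (k : ℕ) : ∃ T n₀ : ℕ, ∀ (n : ℕ) (G : SimpleGraph (Fin n)),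
    n₀ < n → Few G ε k → Star G T := by
  classical
  obtain ⟨m, hm⟩ := exists_nat_ge (1 / ε)
  refine ⟨4 * (m + 1) + 2 ^ (14 + (k + 1)), (4 * m + 1) * ((4 * (m + 1)).choose 4 * 9),
    fun n G hn hfew U hU => ?_⟩
  have hsplit : (U.filter fun u => ((G.neighborSet u).ncard : ℝ) < ε * n).card +
      (U.filter fun u => ¬ ((G.neighborSet u).ncard : ℝ) < ε * n).card = U.card :=
    Finset.card_filter_add_card_filter_not _
  by_cases hL : 2 ^ (14 + (k + 1)) ≤ (U.filter fun u => ((G.neighborSet u).ncard : ℝ) < ε * n).card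
  · rcases ramsey G (14 + (k + 1)) 14 (k + 1) rfl _ hL with ⟨A, hA, hAc, hA2⟩ | ⟨B, hB, hBc, hB2⟩
    · obtain ⟨Y, hYA, hY⟩ := Finset.exists_subset_card_eq (s := A) (n := 10) (by omega)
      have hT : (A \ Y).card = 4 := by
        rw [Finset.card_sdiff_of_subset hYA]; omega
      obtain ⟨s, hs, hs2⟩ := seed_of_sets (G := G) hY hT (fun y hy t ht => by
        have ht' := Finset.mem_sdiff.mp ht
        exact hA2 y (hYA hy) t ht'.1 (fun h => ht'.2 (h ▸ hy)))
      refine ⟨s, hs, fun j hj => ?_⟩
      exact Finset.filter_subset _ _ (hA (Finset.mem_sdiff.mp (hs2 j hj)).1)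
    · exfalso
      have := hfew B hB2 (fun x hx => by
        have := (Finset.mem_filter.mp (hB hx)).2
        rwa [Nat.card_fin])
      omega
  · have hH : 4 * (m + 1) ≤ (U.filter fun u => ¬ ((G.neighborSet u).ncard : ℝ) < ε * n).card := by
      omega
    obtain ⟨W, hWU, hW⟩ := Finset.exists_subset_card_eq hH
    obtain ⟨Y, T, hY, hT, -, hTW, hadj⟩ := exists_Km4' (G := G) m 9 Finset.univ W hW
      (by rw [Finset.card_univ, Fintype.card_fin]; exact hn) (fun v hv => by
        have h1 := (Finset.mem_filter.mp (hWU hv)).2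
        rw [not_lt] at h1
        have h2 : (G.neighborSet v).ncard = (Finset.univ.filter fun w => G.Adj v w).card := by
          rw [← Set.ncard_coe_finset]
          congr 1
          ext w
          simp
        rw [h2] at h1
        rw [Finset.card_univ, Fintype.card_fin]
        have h3 : (n : ℝ) ≤ (m + 1) * ((Finset.univ.filter fun w => G.Adj v w).card : ℝ) := by
          have h4 : 1 ≤ ((m : ℝ) + 1) * ε := by
            rw [div_le_iff₀ hε] at hm
            nlinarith
          calc (n : ℝ) = 1 * n := (one_mul _).symm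
            _ ≤ ((m : ℝ) + 1) * ε * n := by gcongr
            _ = ((m : ℝ) + 1) * (ε * n) := by ring
            _ ≤ _ := by gcongr
        exact_mod_cast h3)
    obtain ⟨Y', hY'Y, hY'⟩ := Finset.exists_subset_card_eq (s := Y) (n := 10) (by omega)
    obtain ⟨s, hs, hs2⟩ := seed_of_sets (G := G) hY' hT (fun y hy t ht => hadj y (hY'Y hy) t ht)
    refine ⟨s, hs, fun j hj => ?_⟩
    exact Finset.filter_subset _ _ (hWU (hTW (hs2 j hj)))

end Pool.Agent.Lib.MP_37c7bf_co_h82dm
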